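import Mathlib

set_option autoImplicit false
set_option maxSynthPendingDepth 3
set_option linter.unusedSectionVars false

open Filter Topology

namespace H611R3.ZL

universe u

/-- Amenability of a complex Banach algebra in the sense of B. E. Johnson: every bounded derivation
`D` from `A` into the dual `E*` of a Banach `A`-bimodule `E` is inner. The bimodule structure of `E`
is given by bounded bilinear actions `L` (left, `L a x = a · x`) and `R` (right, `R a x = x · a`); the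
dual actions are `(a · φ) x = φ (x · a)` and `(φ · a) x = φ (a · x)`. -/
def IsAmenable (A : Type u) [NonUnitalNormedRing A] [NormedSpace ℂ A] : Prop :=
  ∀ (E : Type u) (_ : NormedAddCommGroup E) (_ : NormedSpace ℂ E) (_ : CompleteSpace E)
    (L R : A →L[ℂ] E →L[ℂ] E),
    (∀ (a b : A) (x : E), L (a * b) x = L a (L b x)) →
    (∀ (a b : A) (x : E), R (a * b) x = R b (R a x)) →
    (∀ (a b : A) (x : E), L a (R b x) = R b (L a x)) →
    ∀ D : A →L[ℂ] (E →L[ℂ] ℂ),
      (∀ (a b : A) (x : E), D (a * b) x = D b (R a x) + D a (L b x)) →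
      ∃ f : E →L[ℂ] ℂ, ∀ (a : A) (x : E), D a x = f (R a x) - f (L a x)

section necessity

variable {A : Type u} [NonUnitalNormedRing A] [NormedSpace ℂ A] [IsScalarTower ℂ A A]
  [SMulCommClass ℂ A A]


section aux

variable {U : Type u} [NormedAddCommGroup U] [NormedSpace ℂ U]
  (rU lU : A →L[ℂ] U →L[ℂ] U) (u1 : U)

/-- left action `(L a B)(x,y) = B(x, y a)` -/
noncomputable def actL : A →L[ℂ] (A →L[ℂ] U →L[ℂ] ℂ) →L[ℂ] (A →L[ℂ] U →L[ℂ] ℂ) :=
  LinearMap.mkContinuous₂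
    (LinearMap.mk₂ ℂ (fun (a : A) (B : A →L[ℂ] U →L[ℂ] ℂ) => (B.flip.comp (rU a)).flip)
      (by intro a b B; ext x y; simp)
      (by intro c a B; ext x y; simp)
      (by intro a B B'; ext x y; simp)
      (by intro c a B; ext x y; simp)) ‖rU‖
    (by
      intro a B
      simp only [LinearMap.mk₂_apply, ContinuousLinearMap.opNorm_flip]
      calc _ ≤ ‖B.flip‖ * ‖rU a‖ := ContinuousLinearMap.opNorm_comp_le _ _
        _ ≤ ‖B‖ * (‖rU‖ * ‖a‖) := by
            rw [ContinuousLinearMap.opNorm_flip]; gcongr; exact ContinuousLinearMap.le_opNorm _ _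
        _ = _ := by ring)

lemma actL_apply (a : A) (B : A →L[ℂ] U →L[ℂ] ℂ) (x : A) (y : U) :
    actL rU a B x y = B x (rU a y) := rfl

/-- right action `(R a B)(x,y) = B(a x, y) - B(a, x y)` -/
noncomputable def actR : A →L[ℂ] (A →L[ℂ] U →L[ℂ] ℂ) →L[ℂ] (A →L[ℂ] U →L[ℂ] ℂ) :=
  LinearMap.mkContinuous₂
    (LinearMap.mk₂ ℂ (fun (a : A) (B : A →L[ℂ] U →L[ℂ] ℂ) =>
        B.comp (ContinuousLinearMap.mul ℂ A a) - (ContinuousLinearMap.compL ℂ U U ℂ (B a)).comp lU)
      (by intro a b B; ext x y; simp [add_mul]; ring)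
      (by intro c a B; ext x y; simp [smul_mul_assoc]; ring)
      (by intro a B B'; ext x y; simp; ring)
      (by intro c a B; ext x y; simp; ring)) (1 + ‖lU‖)
    (by
      intro a B
      simp only [LinearMap.mk₂_apply]
      refine ContinuousLinearMap.opNorm_le_bound _ (by positivity) fun x => ?_
      refine ContinuousLinearMap.opNorm_le_bound _ (by positivity) fun y => ?_
      calc ‖B (a * x) y - B a (lU x y)‖ ≤ ‖B (a * x) y‖ + ‖B a (lU x y)‖ := norm_sub_le _ _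
        _ ≤ ‖B‖ * (‖a‖ * ‖x‖) * ‖y‖ + ‖B‖ * ‖a‖ * (‖lU‖ * ‖x‖ * ‖y‖) := by
            refine add_le_add ((B.le_opNorm₂ _ _).trans ?_) ((B.le_opNorm₂ _ _).trans ?_)
            · gcongr; exact norm_mul_le _ _
            · gcongr; exact lU.le_opNorm₂ _ _
        _ = _ := by ring)

lemma actR_apply (a : A) (B : A →L[ℂ] U →L[ℂ] ℂ) (x : A) (y : U) :
    actR lU a B x y = B (a * x) y - B a (lU x y) := rfl

/-- the derivation `D a B = B(a, 1)` -/
noncomputable def DD : A →L[ℂ] ((A →L[ℂ] U →L[ℂ] ℂ) →L[ℂ] ℂ) :=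
  LinearMap.mkContinuous₂
    (LinearMap.mk₂ ℂ (fun (a : A) (B : A →L[ℂ] U →L[ℂ] ℂ) => B a u1)
      (by intro a b B; simp)
      (by intro c a B; simp)
      (by intro a B B'; simp)
      (by intro c a B; simp)) ‖u1‖
    (by
      intro a B
      simp only [LinearMap.mk₂_apply]
      refine (B.le_opNorm₂ _ _).trans ?_
      apply le_of_eq; ring)

lemma DD_apply (a : A) (B : A →L[ℂ] U →L[ℂ] ℂ) : DD u1 a B = B a u1 := rfl

variable {rU lU u1}

theorem IsAmenable.bound_aux (hA : IsAmenable A)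
    (hr : ∀ a b y, rU (a * b) y = rU b (rU a y)) (hl : ∀ a b y, lU (a * b) y = lU a (lU b y))
    (hlr : ∀ a b y, lU a (rU b y) = rU b (lU a y)) (h1 : ∀ b, lU b u1 = rU b u1) :
    ∃ Φ : (A →L[ℂ] U →L[ℂ] ℂ) →L[ℂ] ℂ, ∀ (a : A) (B : A →L[ℂ] U →L[ℂ] ℂ),
      B a u1 = Φ (actR lU a B) - Φ (actL rU a B) := by
  obtain ⟨Φ, hΦ⟩ := hA (A →L[ℂ] U →L[ℂ] ℂ) inferInstance inferInstance inferInstance (actL rU)
    (actR lU)
    (by
      intro a b B
      refine ContinuousLinearMap.ext fun x => ContinuousLinearMap.ext fun y => ?_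
      simp only [actL_apply, hr])
    (by
      intro a b B
      refine ContinuousLinearMap.ext fun x => ContinuousLinearMap.ext fun y => ?_
      simp only [actR_apply, hl, mul_assoc]
      ring)
    (by
      intro a b B
      refine ContinuousLinearMap.ext fun x => ContinuousLinearMap.ext fun y => ?_
      simp only [actR_apply, actL_apply, hlr])
    (DD u1)
    (by
      intro a b B
      simp only [DD_apply, actR_apply, actL_apply, h1]
      ring)
  exact ⟨Φ, fun a B => hΦ a B⟩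

theorem IsAmenable.bound_aux2 (hA : IsAmenable A)
    (hr : ∀ a b y, rU (a * b) y = rU b (rU a y)) (hl : ∀ a b y, lU (a * b) y = lU a (lU b y))
    (hlr : ∀ a b y, lU a (rU b y) = rU b (lU a y)) (h1 : ∀ b, lU b u1 = rU b u1) :
    ∃ C : ℝ, 0 ≤ C ∧
    ∀ (ι : Type u) [Fintype ι] [DecidableEq ι] (e : ι → A) (φ : ι → A →L[ℂ] ℂ) (χ : ι → U →L[ℂ] ℂ),
      (∀ j y, ‖χ j y‖ ≤ 2 * ‖y‖) → (∀ j, φ j (e j) = 1) → (∀ j, χ j u1 = 1) →
      (∀ j a y, χ j (rU a y) = χ j y * φ j a) → (∀ j a y, χ j (lU a y) = φ j a * χ j y) →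
      (∀ j x, e j * x = φ j x • e j) →
      ∀ Ψ : A →L[ℂ] (ι → ℂ) →L[ℂ] ℂ, ‖∑ j, Ψ (e j) (Pi.single j 1)‖ ≤ C * ‖Ψ‖ := by
  obtain ⟨Φ, hΦ⟩ := hA.bound_aux hr hl hlr h1
  refine ⟨2 * ‖Φ‖, by positivity, ?_⟩
  intro ι _ _ e φ χ hχn hφe hχ1 hχr hχl he Ψ
  let BB : ι → A →L[ℂ] U →L[ℂ] ℂ := fun j =>
    (ContinuousLinearMap.smulRightL ℂ U ℂ (χ j)).comp (Ψ.flip (Pi.single j (1 : ℂ)))
  have hBB : ∀ j x y, BB j x y = χ j y * Ψ x (Pi.single j 1) := by
    intro j x y
    simp [BB]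
  have hkey : ∀ j, Ψ (e j) (Pi.single j 1) = - Φ (BB j) := by
    intro j
    have h1 := hΦ (e j) (BB j)
    have h2 : actR lU (e j) (BB j) = 0 := by
      refine ContinuousLinearMap.ext fun x => ContinuousLinearMap.ext fun y => ?_
      rw [actR_apply, hBB, hBB, he j x, hχl, map_smul]
      simp only [ContinuousLinearMap.smul_apply, smul_eq_mul, ContinuousLinearMap.zero_apply]
      ring
    have h3 : actL rU (e j) (BB j) = BB j := by
      refine ContinuousLinearMap.ext fun x => ContinuousLinearMap.ext fun y => ?_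
      rw [actL_apply, hBB, hBB, hχr, hφe, mul_one]
    rw [h2, h3, hBB, hχ1, one_mul, map_zero, zero_sub] at h1
    exact h1
  have hsum : ∑ j, Ψ (e j) (Pi.single j 1) = - Φ (∑ j, BB j) := by
    rw [map_sum, ← Finset.sum_neg_distrib]
    exact Finset.sum_congr rfl fun j _ => hkey j
  have hnorm : ‖∑ j, BB j‖ ≤ 2 * ‖Ψ‖ := by
    refine ContinuousLinearMap.opNorm_le_bound _ (by positivity) fun x => ?_
    refine ContinuousLinearMap.opNorm_le_bound _ (by positivity) fun y => ?_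
    have h1 : (∑ j, BB j) x y = Ψ x (fun j => χ j y) := by
      have h2 : (fun j => χ j y) = ∑ j, χ j y • (Pi.single j (1 : ℂ) : ι → ℂ) := by
        ext i
        simp [Finset.sum_apply, Pi.single_apply]
      rw [h2, map_sum]
      simp only [ContinuousLinearMap.sum_apply, hBB, map_smul, smul_eq_mul]
    rw [h1]
    refine (Ψ.le_opNorm₂ _ _).trans ?_
    have h2 : ‖fun j => χ j y‖ ≤ 2 * ‖y‖ :=
      (pi_norm_le_iff_of_nonneg (by positivity)).2 fun j => hχn j y
    calc ‖Ψ‖ * ‖x‖ * ‖fun j => χ j y‖ ≤ ‖Ψ‖ * ‖x‖ * (2 * ‖y‖) := by gcongr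
      _ = _ := by ring
  rw [hsum, norm_neg]
  calc ‖Φ (∑ j, BB j)‖ ≤ ‖Φ‖ * ‖∑ j, BB j‖ := Φ.le_opNorm _
    _ ≤ ‖Φ‖ * (2 * ‖Ψ‖) := by gcongr
    _ = _ := by ring

end aux

/-- right multiplication on the unitisation, `(t, y) a = (0, t a + y a)` -/
noncomputable def rMul : A →L[ℂ] (ℂ × A) →L[ℂ] (ℂ × A) :=
  LinearMap.mkContinuous₂
    (LinearMap.mk₂ ℂ (fun (a : A) (p : ℂ × A) => ((0 : ℂ), p.1 • a + p.2 * a))
      (by intro a b p; refine Prod.ext (by simp) ?_; simp only [Prod.snd_add, smul_add, mul_add]; abel)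
      (by intro c a p; refine Prod.ext (by simp) ?_
          simp only [Prod.smul_snd, smul_add, mul_smul_comm, smul_comm c])
      (by intro a p q; refine Prod.ext (by simp) ?_
          simp only [Prod.snd_add, Prod.fst_add, add_smul, add_mul]; abel)
      (by intro c a p; refine Prod.ext (by simp) ?_
          simp only [Prod.smul_snd, Prod.smul_fst, smul_add, smul_mul_assoc, smul_eq_mul, mul_smul])) 2
    (by
      intro a p
      simp only [LinearMap.mk₂_apply, Prod.norm_def, norm_zero]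
      rw [max_eq_right (norm_nonneg _)]
      calc ‖p.1 • a + p.2 * a‖ ≤ ‖p.1 • a‖ + ‖p.2 * a‖ := norm_add_le _ _
        _ ≤ ‖p.1‖ * ‖a‖ + ‖p.2‖ * ‖a‖ := add_le_add (norm_smul_le _ _) (norm_mul_le _ _)
        _ ≤ max ‖p.1‖ ‖p.2‖ * ‖a‖ + max ‖p.1‖ ‖p.2‖ * ‖a‖ := by
            gcongr
            · exact le_max_left _ _
            · exact le_max_right _ _
        _ = 2 * ‖a‖ * max ‖p.1‖ ‖p.2‖ := by ring)

/-- left multiplication on the unitisation, `a (t, y) = (0, t a + a y)` -/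
noncomputable def lMul : A →L[ℂ] (ℂ × A) →L[ℂ] (ℂ × A) :=
  LinearMap.mkContinuous₂
    (LinearMap.mk₂ ℂ (fun (a : A) (p : ℂ × A) => ((0 : ℂ), p.1 • a + a * p.2))
      (by intro a b p; refine Prod.ext (by simp) ?_; simp only [Prod.snd_add, smul_add, add_mul]; abel)
      (by intro c a p; refine Prod.ext (by simp) ?_
          simp only [Prod.smul_snd, smul_add, smul_mul_assoc, smul_comm c])
      (by intro a p q; refine Prod.ext (by simp) ?_
          simp only [Prod.snd_add, Prod.fst_add, add_smul, mul_add]; abel)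
      (by intro c a p; refine Prod.ext (by simp) ?_
          simp only [Prod.smul_snd, Prod.smul_fst, smul_add, mul_smul_comm, smul_eq_mul, mul_smul])) 2
    (by
      intro a p
      simp only [LinearMap.mk₂_apply, Prod.norm_def, norm_zero]
      rw [max_eq_right (norm_nonneg _)]
      calc ‖p.1 • a + a * p.2‖ ≤ ‖p.1 • a‖ + ‖a * p.2‖ := norm_add_le _ _
        _ ≤ ‖p.1‖ * ‖a‖ + ‖a‖ * ‖p.2‖ := add_le_add (norm_smul_le _ _) (norm_mul_le _ _)
        _ ≤ max ‖p.1‖ ‖p.2‖ * ‖a‖ + ‖a‖ * max ‖p.1‖ ‖p.2‖ := by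
            gcongr
            · exact le_max_left _ _
            · exact le_max_right _ _
        _ = 2 * ‖a‖ * max ‖p.1‖ ‖p.2‖ := by ring)

lemma rMul_apply (a : A) (p : ℂ × A) : rMul a p = ((0 : ℂ), p.1 • a + p.2 * a) := rfl
lemma lMul_apply (a : A) (p : ℂ × A) : lMul a p = ((0 : ℂ), p.1 • a + a * p.2) := rfl

/-- The key necessary condition for amenability: a uniform bound over finite families of eigen
idempotents. -/
theorem IsAmenable.exists_bound (hA : IsAmenable A) : ∃ C : ℝ, 0 ≤ C ∧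
    ∀ (ι : Type u) [Fintype ι] [DecidableEq ι] (e : ι → A) (φ : ι → A →L[ℂ] ℂ),
      (∀ j, ‖φ j‖ ≤ 1) → (∀ j, φ j (e j) = 1) →
      (∀ j x, x * e j = φ j x • e j) → (∀ j x, e j * x = φ j x • e j) →
      ∀ Ψ : A →L[ℂ] (ι → ℂ) →L[ℂ] ℂ, ‖∑ j, Ψ (e j) (Pi.single j 1)‖ ≤ C * ‖Ψ‖ := by
  obtain ⟨C, hC0, hC⟩ := hA.bound_aux2 (U := ℂ × A) (rU := rMul) (lU := lMul)
    (u1 := ((1 : ℂ), (0 : A)))
    (by intro a b y; simp [rMul_apply, add_mul, smul_mul_assoc, mul_assoc])
    (by intro a b y; simp [lMul_apply, mul_add, mul_smul_comm, mul_assoc])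
    (by intro a b y; simp [rMul_apply, lMul_apply, mul_add, add_mul, mul_smul_comm,
          smul_mul_assoc, mul_assoc])
    (by intro b; simp [rMul_apply, lMul_apply])
  refine ⟨C, hC0, ?_⟩
  intro ι _ _ e φ hφ1 hφe hr hl Ψ
  have hmul : ∀ j x y, φ j (x * y) = φ j x * φ j y := by
    intro j x y
    have h1 : (x * y) * e j = (φ j x * φ j y) • e j := by
      rw [mul_assoc, hr j y, mul_smul_comm, hr j x, smul_smul, mul_comm]
    rw [hr j (x * y)] at h1
    have h2 := congrArg (φ j) h1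
    simpa [hφe] using h2
  refine hC ι e φ (fun j => ContinuousLinearMap.fst ℂ ℂ A + (φ j).comp (ContinuousLinearMap.snd ℂ ℂ A))
    ?_ hφe ?_ ?_ ?_ hl Ψ
  · intro j y
    calc ‖y.1 + φ j y.2‖ ≤ ‖y.1‖ + ‖φ j y.2‖ := norm_add_le _ _
      _ ≤ ‖y‖ + 1 * ‖y‖ := by
          refine add_le_add (norm_fst_le y) (((φ j).le_opNorm _).trans ?_)
          gcongr
          · exact hφ1 j
          · exact norm_snd_le y
      _ = 2 * ‖y‖ := by ring
  · intro j; simp
  · intro j a y
    simp [rMul_apply, hmul, add_mul]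
  · intro j a y
    simp [lMul_apply, hmul, mul_add, mul_comm]

end necessity

end H611R3.ZL
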