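import Mathlib
import Pool.Agent.H611R3.ZL.AM

set_option autoImplicit false
set_option maxSynthPendingDepth 3
set_option linter.unusedSectionVars false

namespace H611R3.ZL

universe u

/-- `L` and `R` are the left and right actions (`L a x = a · x`, `R a x = x · a`) of a Banach
`A`-bimodule structure on `E`. -/
structure IsBimodule {A E : Type u} [NonUnitalNormedRing A] [NormedSpace ℂ A]
    [NormedAddCommGroup E] [NormedSpace ℂ E] (L R : A → E → E) : Prop where
  bdd_left : IsBoundedBilinearMap ℂ fun p : A × E => L p.1 p.2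
  bdd_right : IsBoundedBilinearMap ℂ fun p : A × E => R p.1 p.2
  left_mul : ∀ a b x, L (a * b) x = L a (L b x)
  right_mul : ∀ a b x, R (a * b) x = R b (R a x)
  left_right : ∀ a b x, L a (R b x) = R b (L a x)

/-- `D` is a bounded derivation from `A` into the dual `E*` of the bimodule `E` with actions `L`, `R`:
a bounded bilinear form `(a, x) ↦ (D a)(x)` with `D(ab) = a · D(b) + D(a) · b`, where
`(a · φ)(x) = φ(x · a)` and `(φ · a)(x) = φ(a · x)`. -/
structure IsDualDerivation {A E : Type u} [NonUnitalNormedRing A] [NormedSpace ℂ A]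
    [NormedAddCommGroup E] [NormedSpace ℂ E] (L R : A → E → E) (D : A → E → ℂ) : Prop where
  bdd : IsBoundedBilinearMap ℂ fun p : A × E => D p.1 p.2
  leibniz : ∀ a b x, D (a * b) x = D b (R a x) + D a (L b x)

/-- `D` is inner: for some bounded functional `φ ∈ E*`, `D(a) = a · φ - φ · a` for all `a`. -/
def IsInner {A E : Type u} [NormedAddCommGroup E] [NormedSpace ℂ E]
    (L R : A → E → E) (D : A → E → ℂ) : Prop :=
  ∃ φ : E → ℂ, IsBoundedLinearMap ℂ φ ∧ ∀ a x, D a x = φ (R a x) - φ (L a x)

/-- Amenability of a complex Banach algebra (B. E. Johnson): every bounded derivation from `A` into the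
dual of a Banach `A`-bimodule is inner. -/
def Amenable (A : Type u) [NonUnitalNormedRing A] [NormedSpace ℂ A] : Prop :=
  ∀ (E : Type u) (_ : NormedAddCommGroup E) (_ : NormedSpace ℂ E), CompleteSpace E →
    ∀ L R : A → E → E, IsBimodule L R → ∀ D : A → E → ℂ, IsDualDerivation L R D → IsInner L R D

theorem amenable_iff {A : Type u} [NonUnitalNormedRing A] [NormedSpace ℂ A] :
    Amenable A ↔ IsAmenable A := by
  constructor
  · intro h E _ _ _ L R hL hR hLR D hD
    obtain ⟨φ, hφ, hφ'⟩ := h E inferInstance inferInstance inferInstance (fun a x => L a x) (fun a x => R a x)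
      ⟨L.isBoundedBilinearMap, R.isBoundedBilinearMap, hL, hR, hLR⟩ (fun a x => D a x)
      ⟨D.isBoundedBilinearMap, hD⟩
    exact ⟨hφ.toContinuousLinearMap, fun a x => hφ' a x⟩
  · intro h E _ _ _ L R hLR D hD
    obtain ⟨f, hf⟩ := h E inferInstance inferInstance inferInstance
      hLR.bdd_left.toContinuousLinearMap hLR.bdd_right.toContinuousLinearMap
      hLR.left_mul hLR.right_mul hLR.left_right hD.bdd.toContinuousLinearMap hD.leibniz
    exact ⟨f, f.isBoundedLinearMap, fun a x => hf a x⟩

end H611R3.ZL
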