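import Mathlib
import Pool.Agent.H611R3.ZL.AM

set_option autoImplicit false
set_option maxSynthPendingDepth 3
set_option linter.unusedSectionVars false

open Filter Topology

namespace H611R3.ZL

universe u

/-- weak* limits of bounded families of functionals along an ultrafilter -/
theorem exists_limit {I : Type*} {E : Type*} [NormedAddCommGroup E] [NormedSpace ℂ E]
    (U : Ultrafilter I) (ψ : I → E →L[ℂ] ℂ) (C : ℝ) (hψ : ∀ i, ‖ψ i‖ ≤ C) :
    ∃ ξ : E →L[ℂ] ℂ, ∀ x, Tendsto (fun i => ψ i x) (U : Filter I) (𝓝 (ξ x)) := by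
  have hK : IsCompact (WeakDual.toStrongDual ⁻¹' Metric.closedBall (0 : StrongDual ℂ E) C) :=
    WeakDual.isCompact_closedBall (0 : StrongDual ℂ E) C
  let F : I → WeakDual ℂ E := fun i => StrongDual.toWeakDual (ψ i)
  have hmem : ∀ i, F i ∈ WeakDual.toStrongDual ⁻¹' Metric.closedBall (0 : StrongDual ℂ E) C := by
    intro i
    simp only [Set.mem_preimage, mem_closedBall_zero_iff]
    exact hψ i
  obtain ⟨ξ, -, hξ⟩ := hK.ultrafilter_le_nhds (U.map F) (by
    rw [Filter.le_principal_iff]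
    exact Filter.mem_map.2 (Filter.Eventually.of_forall hmem))
  refine ⟨WeakDual.toStrongDual ξ, fun x => ?_⟩
  have h1 : Tendsto F (U : Filter I) (𝓝 ξ) := hξ
  have h2 : Continuous fun φ : WeakDual ℂ E => φ x := WeakDual.eval_continuous x
  exact (h2.tendsto ξ).comp h1

/-- A sufficient condition for amenability: diagonal sums of eigen idempotents which are uniformly
bounded as functionals on bounded bilinear forms, and whose products form an approximate identity. -/
theorem isAmenable_of_diag {A : Type u} [NonUnitalNormedRing A] [NormedSpace ℂ A]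
    (hcomm : ∀ a b : A, a * b = b * a) {I : Type*} (l : Filter I) [l.NeBot] (K Cg : ℝ)
    (J : I → Type*) [∀ i, Fintype (J i)] (e : ∀ i, J i → A) (c : ∀ i, J i → ℂ)
    (heig : ∀ i j (a : A), ∃ t : ℂ, a * e i j = t • e i j)
    (hgn : ∀ i, ‖∑ j, c i j • (e i j * e i j)‖ ≤ Cg)
    (hg : ∀ a : A, Tendsto (fun i => (∑ j, c i j • (e i j * e i j)) * a) l (𝓝 a))
    (hK : ∀ i (B : A →L[ℂ] A →L[ℂ] ℂ), ‖∑ j, c i j * B (e i j) (e i j)‖ ≤ K * ‖B‖) :
    IsAmenable A := by
  intro E _ _ _ L R hL hR hLR D hD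
  have hK0 : ∀ i : I, ∀ r : ℝ, 0 ≤ r → 0 ≤ |K| * r := fun i r hr => by positivity
  set g : I → A := fun i => ∑ j, c i j • (e i j * e i j) with hgdef
  let U : Ultrafilter I := Ultrafilter.of l
  have hU : (U : Filter I) ≤ l := Ultrafilter.of_le l
  -- the bilinear forms `(a, b) ↦ D b (R a x)`
  let BX : E →L[ℂ] A →L[ℂ] A →L[ℂ] ℂ :=
    LinearMap.mkContinuous₂
      (LinearMap.mk₂ ℂ (fun (x : E) (a : A) => D.flip (R a x))
        (by intro x y a; simp)
        (by intro t x a; simp)
        (by intro x a b; simp)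
        (by intro t x a; simp)) (‖D‖ * ‖R‖)
      (by
        intro x a
        simp only [LinearMap.mk₂_apply]
        calc ‖D.flip (R a x)‖ ≤ ‖D.flip‖ * ‖R a x‖ := D.flip.le_opNorm _
          _ ≤ ‖D‖ * (‖R‖ * ‖a‖ * ‖x‖) := by
              rw [ContinuousLinearMap.opNorm_flip]; gcongr; exact R.le_opNorm₂ _ _
          _ = _ := by ring)
  have hBX : ∀ x a b, BX x a b = D b (R a x) := fun x a b => rfl
  -- first functional
  let ξ0 : I → E →L[ℂ] ℂ := fun i => ∑ j, c i j • ((D (e i j)).comp (R (e i j)))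
  have hξ0 : ∀ i x, ξ0 i x = ∑ j, c i j * D (e i j) (R (e i j) x) := by
    intro i x
    simp [ξ0]
  have hξ0n : ∀ i, ‖ξ0 i‖ ≤ |K| * ‖BX‖ := by
    intro i
    refine ContinuousLinearMap.opNorm_le_bound _ (by positivity) fun x => ?_
    rw [hξ0]
    calc ‖∑ j, c i j * D (e i j) (R (e i j) x)‖ = ‖∑ j, c i j * BX x (e i j) (e i j)‖ := by
          simp only [hBX]
      _ ≤ K * ‖BX x‖ := hK i (BX x)
      _ ≤ |K| * (‖BX‖ * ‖x‖) := by
          refine mul_le_mul (le_abs_self K) (BX.le_opNorm x) (norm_nonneg _) (abs_nonneg K)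
      _ = _ := by ring
  obtain ⟨ξ, hξ⟩ := exists_limit U ξ0 _ hξ0n
  have hid : ∀ i (a : A) (x : E), ξ0 i (R a x) - ξ0 i (L a x) = D a (R (g i) x) := by
    intro i a x
    rw [hξ0, hξ0, ← Finset.sum_sub_distrib, hgdef]
    simp only [map_sum, map_smul, ContinuousLinearMap.sum_apply, ContinuousLinearMap.smul_apply]
    refine Finset.sum_congr rfl fun j _ => ?_
    obtain ⟨t, ht⟩ := heig i j a
    have h1 : R (e i j) (R a x) = t • R (e i j) x := by
      rw [← hR, ht, map_smul]; rfl
    have h2 : D (e i j) (R (e i j) (L a x)) = t * D (e i j) (R (e i j) x)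
        - D a (R (e i j * e i j) x) := by
      rw [← hLR]
      have h3 := hD (e i j) a (R (e i j) x)
      rw [hcomm (e i j) a, ht, map_smul, ← hR] at h3
      rw [eq_sub_iff_add_eq, add_comm]
      rw [← h3]; rfl
    rw [h1, h2, map_smul, smul_eq_mul, smul_eq_mul]
    ring
  have hlim1 : ∀ (a : A) (x : E), Tendsto (fun i => D a (R (g i) x)) (U : Filter I)
      (𝓝 (ξ (R a x) - ξ (L a x))) := by
    intro a x
    have := (hξ (R a x)).sub (hξ (L a x))
    simpa only [hid] using this
  -- the second derivation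
  have hgU : ∀ a : A, Tendsto (fun i => g i * a) (U : Filter I) (𝓝 a) := fun a => (hg a).mono_left hU
  have hDR : ∀ (a b : A) (x : E), D a (R b x) = ξ (R a (R b x)) - ξ (L a (R b x)) := by
    intro a b x
    have h1 := hlim1 a (R b x)
    have h2 : Tendsto (fun i => D a (R (g i) (R b x))) (U : Filter I) (𝓝 (D a (R b x))) := by
      have h3 : ∀ i, D a (R (g i) (R b x)) = (D a) (R (g i * b) x) := by
        intro i
        rw [← hR, hcomm b (g i)]
      simp only [h3]
      have h4 : Continuous fun y : A => (D a) (R y x) := by fun_prop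
      exact (h4.tendsto b).comp (hgU b)
    exact tendsto_nhds_unique h2 h1
  -- D2 a x = D a x - (ξ (R a x) - ξ (L a x))
  let D2 : A →L[ℂ] (E →L[ℂ] ℂ) :=
    D - (((ContinuousLinearMap.compL ℂ E E ℂ) ξ).comp R - ((ContinuousLinearMap.compL ℂ E E ℂ) ξ).comp L)
  have hD2 : ∀ a x, D2 a x = D a x - (ξ (R a x) - ξ (L a x)) := fun a x => rfl
  have hD2R : ∀ a b x, D2 a (R b x) = 0 := by
    intro a b x
    rw [hD2, hDR, sub_self]
  have hD2d : ∀ a b x, D2 (a * b) x = D2 a (L b x) := by
    intro a b x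
    have h1 : D2 (a * b) x = D2 b (R a x) + D2 a (L b x) := by
      simp only [hD2, hD, hR, hL, hLR]
      ring
    rw [h1, hD2R, zero_add]
  obtain ⟨η, hη⟩ := exists_limit U (fun i => D2 (g i)) (‖D2‖ * Cg) (fun i =>
    (D2.le_opNorm _).trans (mul_le_mul_of_nonneg_left (hgn i) (norm_nonneg _)))
  have hηR : ∀ a x, η (R a x) = 0 := by
    intro a x
    have := hη (R a x)
    simp only [hD2R] at this
    exact tendsto_nhds_unique this tendsto_const_nhds
  have hηL : ∀ a x, η (L a x) = D2 a x := by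
    intro a x
    have h1 := hη (L a x)
    simp only [← hD2d] at h1
    have h4 : Continuous fun y : A => D2 y x := by fun_prop
    exact tendsto_nhds_unique h1 ((h4.tendsto a).comp (hgU a))
  refine ⟨ξ - η, fun a x => ?_⟩
  have h5 := hD2 a x
  rw [← hηL] at h5
  simp only [ContinuousLinearMap.sub_apply, hηR]
  rw [h5]
  ring

end H611R3.ZL
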